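import Mathlib

/-!
# MP_2d002d_gt, project PM: definitions (see Paper.md and Blueprint.md in this folder)
-/

set_option autoImplicit false

open MeasureTheory Set Filter Topology
open scoped ENNReal

namespace Pool.Agent.Lib.MP_2d002d_gt.PM

/-- Admissible potentials: `C^2`, jointly convex in `(s, x)`, even in `x`, nonnegative. -/
structure Pot {n : ℕ} (U : ℝ × (Fin n → ℝ) → ℝ) : Prop where
  smooth : ContDiff ℝ 2 U
  convex : ConvexOn ℝ univ U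
  even : ∀ (s : ℝ) (x : Fin n → ℝ), U (s, -x) = U (s, x)
  nonneg : ∀ p, 0 ≤ U p

/-- Smooth profiles: on `[0, ∞)` positive, nondecreasing, concave, with bounded derivatives. -/
structure Prof (S : ℝ → ℝ) : Prop where
  smooth : ContDiff ℝ 2 S
  pos : ∀ z, 0 ≤ z → 0 < S z
  d1 : ∀ z, 0 ≤ z → 0 ≤ deriv S z
  d2 : ∀ z, 0 ≤ z → deriv (deriv S) z ≤ 0
  bdd : ∃ C, ∀ z, 0 ≤ z → |S z| ≤ C ∧ |deriv S z| ≤ C ∧ |deriv (deriv S) z| ≤ C

/-- The even log-concave density with profile `S`: `ly S x = ∫_0^∞ 1{|x| ≤ S z} e^{-z} dz`. -/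
noncomputable def ly (S : ℝ → ℝ) (x : ℝ) : ℝ≥0∞ :=
  ∫⁻ z in Ioi (0 : ℝ), (if |x| ≤ S z then ENNReal.ofReal (Real.exp (-z)) else 0)

/-- The domain of `(s, W)`: `r(s) = α + β s > 0` and all walls positive. -/
def Om (n : ℕ) (α β : ℝ) : Set (ℝ × (Fin n → ℝ)) :=
  {p | 0 < α + β * p.1 ∧ ∀ i, 0 < p.2 i}

/-- The weight of coordinate `i`: a wall at `p.2 i` if `i ∈ R`, else the density `ly (S i)`
scaled by `r(s) = α + β s`. -/
noncomputable def cw {n : ℕ} (S : Fin n → ℝ → ℝ) (α β : ℝ) (R : Finset (Fin n))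
    (p : ℝ × (Fin n → ℝ)) (i : Fin n) (y : ℝ) : ℝ≥0∞ :=
  if i ∈ R then (if |y| ≤ p.2 i then 1 else 0) else ly (S i) (y / (α + β * p.1))

/-- The functional with walls on `R` and the remaining coordinates integrated. -/
noncomputable def HE {n : ℕ} (U : ℝ × (Fin n → ℝ) → ℝ) (S : Fin n → ℝ → ℝ) (α β : ℝ)
    (R : Finset (Fin n)) (p : ℝ × (Fin n → ℝ)) : ℝ≥0∞ :=
  ∫⁻ x : Fin n → ℝ, (∏ i, cw S α β R p i (x i)) * ENNReal.ofReal (Real.exp (-U (p.1, x)))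

/-- Real version of `HE`. -/
noncomputable def HR {n : ℕ} (U : ℝ × (Fin n → ℝ) → ℝ) (S : Fin n → ℝ → ℝ) (α β : ℝ)
    (R : Finset (Fin n)) (p : ℝ × (Fin n → ℝ)) : ℝ := (HE U S α β R p).toReal

/-- The integral over the box with half-sides `p.2`. -/
noncomputable def HB {n : ℕ} (U : ℝ × (Fin n → ℝ) → ℝ) (p : ℝ × (Fin n → ℝ)) : ℝ≥0∞ :=
  ∫⁻ x : Fin n → ℝ, (if ∀ i, |x i| ≤ p.2 i then ENNReal.ofReal (Real.exp (-U (p.1, x))) else 0)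

/-- The point with wall `i` moved to `r(s) S(z)`. -/
def pt {n : ℕ} (α β : ℝ) (S : ℝ → ℝ) (i : Fin n) (p : ℝ × (Fin n → ℝ)) (z : ℝ) :
    ℝ × (Fin n → ℝ) :=
  (p.1, Function.update p.2 i ((α + β * p.1) * S z))

/-- The linear part of `p ↦ pt α β S i p z`. -/
def dr {n : ℕ} (β : ℝ) (S : ℝ → ℝ) (i : Fin n) (v : ℝ × (Fin n → ℝ)) (z : ℝ) :
    ℝ × (Fin n → ℝ) :=
  (v.1, Function.update v.2 i (β * v.1 * S z))

/-- Integrate the wall `i` against the profile `S`. -/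
noncomputable def TT {n : ℕ} (α β : ℝ) (S : ℝ → ℝ) (i : Fin n) (H : ℝ × (Fin n → ℝ) → ℝ)
    (p : ℝ × (Fin n → ℝ)) : ℝ :=
  ∫ z in Ioi (0 : ℝ), H (pt α β S i p z) * Real.exp (-z)

/-- The direction of wall `i`. -/
def ew {n : ℕ} (i : Fin n) : ℝ × (Fin n → ℝ) := (0, Pi.single i 1)

/-- The class reproduced by `TT`: `C^2`, positive, with the surplus in the Hessian of the
logarithm. -/
structure Reg {n : ℕ} (α β : ℝ) (H : ℝ × (Fin n → ℝ) → ℝ) : Prop where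
  cd : ContDiffOn ℝ 2 H (Om n α β)
  pos : ∀ p ∈ Om n α β, 0 < H p
  hess : ∀ p ∈ Om n α β, ∀ c : Fin n → ℝ,
    fderiv ℝ (fderiv ℝ (fun q => Real.log (H q))) p (1, c) (1, c) ≤
      - ∑ l, (c l * fderiv ℝ (fun q => Real.log (H q)) p (ew l)) ^ 2

/-- The one-dimensional wall inequality (`Φ1 = Φ'`, `Φ2 = Φ''` at `x`). -/
def WallIneq (x Φ Φ1 Φ2 : ℝ) : Prop :=
  0 < Φ1 ∧ x * Φ1 ≤ Φ ∧ Φ2 ≤ 0 ∧
    3 * Φ1 * Φ ≤ (2 + Real.sqrt 3) * x * Φ1 ^ 2 - x * Φ2 * Φ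

/-- The wall inequality for `H` in the wall `i`. -/
def WallOK {n : ℕ} (α β : ℝ) (i : Fin n) (H : ℝ × (Fin n → ℝ) → ℝ) : Prop :=
  ∀ p ∈ Om n α β, WallIneq (p.2 i) (H p) (fderiv ℝ H p (ew i))
    (fderiv ℝ (fderiv ℝ H) p (ew i) (ew i))

/-- continuous and bounded on `[0, ∞)` -/
def Bd (f : ℝ → ℝ) : Prop :=
  ContinuousOn f (Ici 0) ∧ ∃ C, ∀ z, 0 ≤ z → |f z| ≤ C

/-- `f` and `f'` continuous and bounded on `[0, ∞)`, `f'` the derivative of `f` on `(0, ∞)` -/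
def BdD (f f' : ℝ → ℝ) : Prop :=
  Bd f ∧ Bd f' ∧ ∀ z, 0 < z → HasDerivAt f (f' z) z

/-- log-concavity for `[0, ∞]`-valued functions -/
def LogC {E : Type*} [AddCommGroup E] [Module ℝ E] (F : E → ℝ≥0∞) : Prop :=
  ∀ t : ℝ, 0 < t → t < 1 → ∀ x y : E, F x ^ (1 - t) * F y ^ t ≤ F ((1 - t) • x + t • y)

end Pool.Agent.Lib.MP_2d002d_gt.PM
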