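import Mathlib
import Pool.Agent.Lib.MP_2d002d_gt.H29.Final
import Pool.Agent.Lib.MP_2d002d_gt.PM.Defs

/-!
# MP_2d002d_gt, project PM: statements of the modules (proofs: Blueprint.md)
-/

set_option autoImplicit false

open MeasureTheory Set Filter Topology
open scoped ENNReal Pointwise

namespace Pool.Agent.Lib.MP_2d002d_gt.PM

open Pool.Agent.Lib.MP_2d002d_gt.H29 (ELC Body MK)

/-! ## one-dimensional facts -/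

/-- NUM -/
def NUM_S : Prop :=
  ∀ L : ℝ, 0 ≤ L → (3 - L) * (Real.exp L - 1) ≤ (2 + Real.sqrt 3) * L

/-- K1: the integral over `[-x, x]` of an even log-concave function satisfies the wall
inequality. -/
def K1_S : Prop :=
  ∀ (k : ℝ → ℝ≥0∞) (Φ Φ1 Φ2 : ℝ → ℝ), Measurable k → (∀ a, k (-a) = k a) → LogC k →
    (∀ x, 0 < x → ∫⁻ a in Icc (-x) x, k a = ENNReal.ofReal (Φ x)) →
    (∀ x, 0 < x → 0 < Φ x) → (∀ x y, 0 < x → x < y → Φ x < Φ y) →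
    (∀ x, 0 < x → HasDerivAt Φ (Φ1 x) x) → (∀ x, 0 < x → HasDerivAt Φ1 (Φ2 x) x) →
    ∀ x, 0 < x → WallIneq x (Φ x) (Φ1 x) (Φ2 x)

/-- PPT: the pointwise inequality behind P (`q` is a smooth version of `|c|`). -/
def PPT_S : Prop :=
  ∀ S S1 S2 F k k1 w c c1 q q1 γ ε : ℝ, 0 < S → 0 ≤ S1 → S2 ≤ 0 → 0 < F → k = F * w →
    WallIneq S F k k1 → 0 ≤ q → q ≤ |c| → |c| ≤ q + ε → |q1| ≤ |c1| →
    |γ| * (k * S * q1 - q * (k * S - S1 * (S * k1 + k))) - 2 * |γ| * ε * k * S1 ≤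
      F * ((γ * S + S1 * c) ^ 2 * w ^ 2 - 2 * γ * S1 * c * w - S2 * c ^ 2 * w + c1 ^ 2)

/-- P: the one-dimensional integral inequality. -/
def P_S : Prop :=
  ∀ (S S1 S2 F k k1 w c c1 : ℝ → ℝ) (γ : ℝ), BdD S S1 → Bd S2 → Bd F →
    BdD k (fun z => k1 z * S1 z) → Bd k1 → Bd w → BdD c c1 → c 0 = 0 →
    (∀ z, 0 ≤ z → 0 < S z ∧ 0 ≤ S1 z ∧ S2 z ≤ 0 ∧ 0 < F z ∧ k z = F z * w z) →
    (∀ z, 0 ≤ z → WallIneq (S z) (F z) (k z) (k1 z)) →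
    0 ≤ ∫ z in Ioi (0 : ℝ), Real.exp (-z) * (F z * ((γ * S z + S1 z * c z) ^ 2 * w z ^ 2 -
      2 * γ * S1 z * c z * w z - S2 z * c z ^ 2 * w z + c1 z ^ 2))

/-- VAR: the dual (Brascamp-Lieb, Hoermander) form of the second derivative of a logarithm. -/
def VAR_S : Prop :=
  ∀ (ℓ ℓ1 ℓ2 g g1 A : ℝ → ℝ) (B : ℝ), BdD ℓ ℓ1 → BdD ℓ1 ℓ2 → BdD g g1 → Bd A →
    (∀ c c1 : ℝ → ℝ, BdD c c1 → c 0 = 0 →
      ∫ z in Ioi (0 : ℝ), Real.exp (ℓ z - z) *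
        (A z + 2 * c z * g1 z + c z ^ 2 * ℓ2 z - c1 z ^ 2) ≤
      -B * ∫ z in Ioi (0 : ℝ), Real.exp (ℓ z - z)) →
    (∫ z in Ioi (0 : ℝ), Real.exp (ℓ z - z) * (A z + g z ^ 2)) /
        (∫ z in Ioi (0 : ℝ), Real.exp (ℓ z - z)) -
      ((∫ z in Ioi (0 : ℝ), Real.exp (ℓ z - z) * g z) /
        (∫ z in Ioi (0 : ℝ), Real.exp (ℓ z - z))) ^ 2 ≤ -B

/-- D2 -/
def D2_S : Prop :=
  ∀ (f f1 : ℝ → ℝ) (f2 ε B C : ℝ), 0 < ε → (∀ h, |h| < ε → HasDerivAt f (f1 h) h) →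
    HasDerivAt f1 f2 0 →
    (∀ h, 0 < h → h < ε → f h * f (-h) ≤ f 0 ^ 2 - B * h ^ 2 + C * h ^ 4) →
    f 0 * f2 - f1 0 ^ 2 ≤ -B

/-! ## densities, marginals -/

/-- LY: properties of the densities `ly S`. -/
def LY_S : Prop :=
  ∀ S : ℝ → ℝ, Prof S → Measurable (ly S) ∧ (∀ x, ly S (-x) = ly S x) ∧ LogC (ly S) ∧
    (∀ x, ly S x ≤ 1) ∧ (∀ x, |x| ≤ S 0 → ly S x = 1) ∧
    (∀ C, (∀ z, 0 ≤ z → S z ≤ C) → ∀ x, C < |x| → ly S x = 0)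

/-- MARG: the marginal of an even log-concave function on a coordinate. -/
def MARG_S : Prop :=
  ∀ (n : ℕ) (F : (Fin n → ℝ) → ℝ≥0∞) (i : Fin n), Measurable F → LogC F →
    (∀ x, F (-x) = F x) →
    ∃ k : ℝ → ℝ≥0∞, Measurable k ∧ (∀ a, k (-a) = k a) ∧ LogC k ∧
      ∀ g : ℝ → ℝ≥0∞, Measurable g → ∫⁻ x : Fin n → ℝ, g (x i) * F x = ∫⁻ a, g a * k a

/-! ## the functionals -/

/-- FIN: finiteness and positivity. -/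
def FIN_S : Prop :=
  ∀ (n : ℕ) (U : ℝ × (Fin n → ℝ) → ℝ) (S : Fin n → ℝ → ℝ) (α β : ℝ) (R : Finset (Fin n)),
    Pot U → (∀ i, Prof (S i)) → ∀ p ∈ Om n α β, HE U S α β R p ≠ ∞ ∧ HE U S α β R p ≠ 0

/-- HEU: with all walls, `HE` is `HB`. -/
def HEU_S : Prop :=
  ∀ (n : ℕ) (U : ℝ × (Fin n → ℝ) → ℝ) (S : Fin n → ℝ → ℝ) (α β : ℝ) (p : ℝ × (Fin n → ℝ)),
    HE U S α β Finset.univ p = HB U p

/-- FUB: the recursion. -/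
def FUB_S : Prop :=
  ∀ (n : ℕ) (U : ℝ × (Fin n → ℝ) → ℝ) (S : Fin n → ℝ → ℝ) (α β : ℝ) (R : Finset (Fin n))
    (i : Fin n), Pot U → (∀ l, Prof (S l)) → i ∈ R → ∀ p ∈ Om n α β,
    HR U S α β (R.erase i) p = TT α β (S i) i (HR U S α β R) p

/-- KAPPA: the wall inequality for all the functionals. -/
def KAPPA_S : Prop :=
  ∀ (n : ℕ) (U : ℝ × (Fin n → ℝ) → ℝ) (S : Fin n → ℝ → ℝ) (α β : ℝ) (R : Finset (Fin n))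
    (i : Fin n), Pot U → (∀ l, Prof (S l)) → i ∈ R →
    ContDiffOn ℝ 2 (HR U S α β R) (Om n α β) → WallOK α β i (HR U S α β R)

/-- LOGD: derivatives of the logarithm. -/
def LOGD_S : Prop :=
  ∀ (n : ℕ) (α β : ℝ) (H : ℝ × (Fin n → ℝ) → ℝ), ContDiffOn ℝ 2 H (Om n α β) →
    (∀ p ∈ Om n α β, 0 < H p) →
    ContDiffOn ℝ 2 (fun q => Real.log (H q)) (Om n α β) ∧ ∀ p ∈ Om n α β,
      (∀ v, fderiv ℝ (fun q => Real.log (H q)) p v = fderiv ℝ H p v / H p) ∧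
      (∀ v w, fderiv ℝ (fderiv ℝ (fun q => Real.log (H q))) p v w =
        fderiv ℝ (fderiv ℝ H) p v w / H p - fderiv ℝ H p v * fderiv ℝ H p w / H p ^ 2) ∧
      (∀ v w, fderiv ℝ (fderiv ℝ H) p v w = fderiv ℝ (fderiv ℝ H) p w v)

/-! ## one coordinate -/

/-- COMP: composition of a `C^2` function with `z ↦ pt α β S i p z`. -/
def COMP_S : Prop :=
  ∀ (n : ℕ) (α β : ℝ) (S : ℝ → ℝ) (i : Fin n) (G : ℝ × (Fin n → ℝ) → ℝ), Prof S →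
    ContDiffOn ℝ 2 G (Om n α β) → ∀ p ∈ Om n α β, ∀ v : ℝ × (Fin n → ℝ),
    BdD (fun z => G (pt α β S i p z))
      (fun z => fderiv ℝ G (pt α β S i p z) (ew i) * ((α + β * p.1) * deriv S z)) ∧
    BdD (fun z => fderiv ℝ G (pt α β S i p z) (ew i))
      (fun z => fderiv ℝ (fderiv ℝ G) (pt α β S i p z) (ew i) (ew i) *
        ((α + β * p.1) * deriv S z)) ∧
    BdD (fun z => fderiv ℝ G (pt α β S i p z) (dr β S i v z))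
      (fun z => fderiv ℝ (fderiv ℝ G) (pt α β S i p z) (ew i) (dr β S i v z) *
        ((α + β * p.1) * deriv S z) +
        fderiv ℝ G (pt α β S i p z) (ew i) * (β * v.1 * deriv S z)) ∧
    Bd (fun z => fderiv ℝ (fderiv ℝ G) (pt α β S i p z) (dr β S i v z) (dr β S i v z)) ∧
    Bd (fun z => fderiv ℝ (fderiv ℝ G) (pt α β S i p z) (ew i) (ew i)) ∧
    ∀ l, Bd (fun z => fderiv ℝ G (pt α β S i p z) (ew l))

/-- TC2: differentiation under the integral sign. -/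
def TC2_S : Prop :=
  ∀ (n : ℕ) (α β : ℝ) (S : ℝ → ℝ) (i : Fin n) (H : ℝ × (Fin n → ℝ) → ℝ), Prof S →
    ContDiffOn ℝ 2 H (Om n α β) →
    ContDiffOn ℝ 2 (TT α β S i H) (Om n α β) ∧ ∀ p ∈ Om n α β,
      (∀ v, fderiv ℝ (TT α β S i H) p v =
        ∫ z in Ioi (0 : ℝ), fderiv ℝ H (pt α β S i p z) (dr β S i v z) * Real.exp (-z)) ∧
      (∀ v w, fderiv ℝ (fderiv ℝ (TT α β S i H)) p v w =
        ∫ z in Ioi (0 : ℝ), fderiv ℝ (fderiv ℝ H) (pt α β S i p z) (dr β S i v z)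
          (dr β S i w z) * Real.exp (-z))

/-- STEP: the class `Reg` is reproduced. -/
def STEP_S : Prop :=
  ∀ (n : ℕ) (α β : ℝ) (S : ℝ → ℝ) (i : Fin n) (H : ℝ × (Fin n → ℝ) → ℝ), Prof S →
    Reg α β H → WallOK α β i H → Reg α β (TT α β S i H)

/-! ## the base case -/

/-- BC2 -/
def BC2_S : Prop :=
  ∀ (n : ℕ) (U : ℝ × (Fin n → ℝ) → ℝ) (α β : ℝ), Pot U →
    ContDiffOn ℝ 2 (fun p => (HB U p).toReal) (Om n α β)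

/-- the doubled integral with the corners removed -/
noncomputable def JJ {n : ℕ} (U : ℝ × (Fin n → ℝ) → ℝ) (s : ℝ) (W δ : Fin n → ℝ) : ℝ≥0∞ :=
  ∫⁻ x : Fin n → ℝ, ∫⁻ y : Fin n → ℝ,
    (if ∀ i, |x i| ≤ W i ∧ |y i| ≤ W i ∧ |x i - y i| ≤ 2 * (W i - δ i) then
      ENNReal.ofReal (Real.exp (-U (s, x))) * ENNReal.ofReal (Real.exp (-U (s, y))) else 0)

/-- DBL: doubling at the walls. -/
def DBL_S : Prop :=
  ∀ (n : ℕ) (U : ℝ × (Fin n → ℝ) → ℝ), Pot U → ∀ (s h : ℝ) (W d : Fin n → ℝ),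
    (∀ i, |d i| ≤ W i) →
    HB U (s + h, fun i => W i + d i) * HB U (s - h, fun i => W i - d i) ≤
      JJ U s W (fun i => |d i|)

/-- CORNA: one corner carries mass at least `(δ κ)^2`. -/
def CORNA_S : Prop :=
  ∀ (n : ℕ) (U : ℝ × (Fin n → ℝ) → ℝ), Pot U → ∀ (s : ℝ) (W : Fin n → ℝ), (∀ i, 0 < W i) →
    ∀ (i : Fin n) (κ δ : ℝ), 0 ≤ δ → δ ≤ W i →
    HasDerivAt (fun x => (HB U (s, Function.update W i x)).toReal) κ (W i) →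
    ENNReal.ofReal ((δ * κ) ^ 2) ≤ ∫⁻ x : Fin n → ℝ, ∫⁻ y : Fin n → ℝ,
      (if (∀ l, |x l| ≤ W l ∧ |y l| ≤ W l) ∧ 2 * (W i - δ) < |x i - y i| then
        ENNReal.ofReal (Real.exp (-U (s, x))) * ENNReal.ofReal (Real.exp (-U (s, y))) else 0)

/-- CORNB: two corners overlap little. -/
def CORNB_S : Prop :=
  ∀ (n : ℕ) (W : Fin n → ℝ), (∀ i, 0 < W i) → ∃ C : ℝ, 0 ≤ C ∧
    ∀ (i l : Fin n), i ≠ l → ∀ δ δ' : ℝ, 0 ≤ δ → δ ≤ W i → 0 ≤ δ' → δ' ≤ W l →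
    ∫⁻ x : Fin n → ℝ, ∫⁻ y : Fin n → ℝ,
      (if (∀ m, |x m| ≤ W m ∧ |y m| ≤ W m) ∧ 2 * (W i - δ) < |x i - y i| ∧
        2 * (W l - δ') < |x l - y l| then (1 : ℝ≥0∞) else 0) ≤
      ENNReal.ofReal (C * δ ^ 2 * δ' ^ 2)

/-- CORN: the doubled integral with the corners removed. -/
def CORN_S : Prop :=
  ∀ (n : ℕ) (U : ℝ × (Fin n → ℝ) → ℝ), Pot U → ∀ (s : ℝ) (W κ : Fin n → ℝ), (∀ i, 0 < W i) →
    (∀ i, HasDerivAt (fun x => (HB U (s, Function.update W i x)).toReal) (κ i) (W i)) →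
    ∃ C : ℝ, 0 ≤ C ∧ ∀ δ : Fin n → ℝ, (∀ i, 0 ≤ δ i ∧ δ i ≤ W i) →
      (JJ U s W δ).toReal ≤ (HB U (s, W)).toReal ^ 2 - ∑ i, (δ i * κ i) ^ 2 +
        C * ∑ i, ∑ l ∈ Finset.univ.erase i, δ i ^ 2 * δ l ^ 2

/-- BASE -/
def BASE_S : Prop :=
  ∀ (n : ℕ) (U : ℝ × (Fin n → ℝ) → ℝ) (S : Fin n → ℝ → ℝ) (α β : ℝ), Pot U →
    (∀ i, Prof (S i)) → Reg α β (HR U S α β Finset.univ)

/-- SM: the smooth theorem. -/
def SM_S : Prop :=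
  ∀ (n : ℕ) (U : ℝ × (Fin n → ℝ) → ℝ) (S : Fin n → ℝ → ℝ) (α β : ℝ), Pot U →
    (∀ i, Prof (S i)) → ∀ s₀ s₁ : ℝ, 0 < α + β * s₀ → 0 < α + β * s₁ →
    HE U S α β ∅ (s₀, 1) * HE U S α β ∅ (s₁, 1) ≤ HE U S α β ∅ ((s₀ + s₁) / 2, 1) ^ 2

/-! ## approximation -/

/-- APXU -/
def APXU_S : Prop :=
  ∀ (n : ℕ) (K₀ K₁ : Set (Fin n → ℝ)), IsCompact K₀ → Convex ℝ K₀ → (∀ x ∈ K₀, -x ∈ K₀) →
    K₀.Nonempty → IsCompact K₁ → Convex ℝ K₁ → (∀ x ∈ K₁, -x ∈ K₁) → K₁.Nonempty →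
    ∃ U : ℕ → ℝ × (Fin n → ℝ) → ℝ, (∀ N, Pot (U N)) ∧
      ∀ s : ℝ, 0 ≤ s → s ≤ 1 → ∀ x : Fin n → ℝ,
        Tendsto (fun N => ENNReal.ofReal (Real.exp (-U N (s, x)))) atTop
          (𝓝 (((1 - s) • K₀ + s • K₁).indicator 1 x))

/-- APXS -/
def APXS_S : Prop :=
  ∀ (f : ℝ → ℝ) (R : ℝ), ELC f → f 0 = 1 → 0 < R → (∀ x, R < |x| → f x = 0) →
    ∃ S : ℕ → ℝ → ℝ, (∀ N, Prof (S N)) ∧ (∀ N z, 0 ≤ z → S N z ≤ R + 1) ∧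
      ∀ᵐ x : ℝ, Tendsto (fun N => ly (S N) x) atTop (𝓝 (ENNReal.ofReal (f x)))

/-- LIM: dominated convergence. -/
def LIM_S : Prop :=
  ∀ (n : ℕ) (f : Fin n → ℝ → ℝ) (R : ℝ) (S : ℕ → Fin n → ℝ → ℝ)
    (U : ℕ → ℝ × (Fin n → ℝ) → ℝ) (K : Set (Fin n → ℝ)) (α β s : ℝ), (∀ i, ELC (f i)) →
    (∀ N i, Prof (S N i)) → (∀ N i z, 0 ≤ z → S N i z ≤ R + 1) →
    (∀ i, ∀ᵐ x : ℝ, Tendsto (fun N => ly (S N i) x) atTop (𝓝 (ENNReal.ofReal (f i x)))) →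
    (∀ N, Pot (U N)) → MeasurableSet K →
    (∀ x : Fin n → ℝ, Tendsto (fun N => ENNReal.ofReal (Real.exp (-U N (s, x)))) atTop
      (𝓝 (K.indicator 1 x))) → 0 < α + β * s →
    Tendsto (fun N => HE (U N) (S N) α β ∅ (s, 1)) atTop (𝓝 (MK f K (α + β * s)))

/-- QC: the midpoint inequality for all even log-concave products and all bodies. -/
def QC_S : Prop :=
  ∀ (n : ℕ) (f : Fin n → ℝ → ℝ), (∀ i, ELC (f i)) → ∀ K₀ K₁ : Set (Fin n → ℝ), Body K₀ →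
    Body K₁ → ∀ r₀ r₁ : ℝ, 0 < r₀ → 0 < r₁ →
    MK f K₀ r₀ * MK f K₁ r₁ ≤ MK f ((1 / 2 : ℝ) • (K₀ + K₁)) ((r₀ + r₁) / 2) ^ 2

/-- FINAL: the frozen statement. -/
def FINAL_S : Prop :=
  ∀ n : ℕ, 1 ≤ n →
    ∀ f : Fin n → ℝ → ℝ,
      (∀ i x, 0 ≤ f i x) →
      (∀ i x, f i (-x) = f i x) →
      (∀ i (x y t : ℝ), 0 ≤ t → t ≤ 1 →
          f i x ^ t * f i y ^ (1 - t) ≤ f i (t * x + (1 - t) * y)) →
    ∀ μ : Measure (Fin n → ℝ),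
      μ = (volume : Measure (Fin n → ℝ)).withDensity
            (fun x => ENNReal.ofReal (∏ i, f i (x i))) →
    ∀ A B : Set (Fin n → ℝ),
      Convex ℝ A → Convex ℝ B → A.Nonempty → B.Nonempty →
      (∀ x ∈ A, -x ∈ A) → (∀ x ∈ B, -x ∈ B) →
    ∀ t : ℝ, 0 ≤ t → t ≤ 1 →
      ENNReal.ofReal t * (μ A) ^ (1 / (n : ℝ))
        + ENNReal.ofReal (1 - t) * (μ B) ^ (1 / (n : ℝ))
        ≤ (μ (t • A + (1 - t) • B)) ^ (1 / (n : ℝ))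

end Pool.Agent.Lib.MP_2d002d_gt.PM
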