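import Pool.Agent.Lib.MP_2d002d_gt.PM.Interfaces
import Pool.Agent.Lib.MP_2d002d_gt.PM.H25.Fin
import Pool.Agent.Lib.MP_2d002d_gt.PM.H25.Fub
import Pool.Agent.Lib.MP_2d002d_gt.PM.H28.Bc2
import Pool.Agent.Lib.MP_2d002d_gt.PM.H29.Final
import Pool.Agent.Lib.MP_2d002d_gt.PM.H29.Tc2
import Pool.Agent.Lib.MP_2d002d_gt.PM.H30.Apxs
import Pool.Agent.Lib.MP_2d002d_gt.PM.H30.Lim
import Pool.Agent.Lib.MP_2d002d_gt.PM.H36.QC
import Pool.Agent.Lib.MP_2d002d_gt.PM.H39.K1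
import Pool.Agent.Lib.MP_2d002d_gt.PM.H39.Logd
import Pool.Agent.Lib.MP_2d002d_gt.PM.H47.Ly
import Pool.Agent.Lib.MP_2d002d_gt.PM.H47.Var
import Pool.Agent.Lib.MP_2d002d_gt.PM.H57.Num
import Pool.Agent.Lib.MP_2d002d_gt.PM.H65.Heu
import Pool.Agent.Lib.MP_2d002d_gt.PM.H70.Ppt
import Pool.Agent.Lib.MP_2d002d_gt.PM.H72.CornMod
import Pool.Agent.Lib.MP_2d002d_gt.PM.H72.DblMod
import Pool.Agent.Lib.MP_2d002d_gt.PM.H72.Base
import Pool.Agent.Lib.MP_2d002d_gt.PM.H79.Step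
import Pool.Agent.Lib.MP_2d002d_gt.PM.H87.Marg
import Pool.Agent.Lib.MP_2d002d_gt.PM.H92.SM
import Pool.Agent.Lib.MP_2d002d_gt.PM.H93.Apxu
import Pool.Agent.Lib.MP_2d002d_gt.PM.H98.Comp
import Pool.Agent.Lib.MP_2d002d_gt.PM.H98.Kappa

/-!
# MP_2d002d_gt, project PM: the assembly
-/

set_option autoImplicit false

namespace Pool.Agent.Lib.MP_2d002d_gt.PM

/-- The frozen statement. -/
theorem all : FINAL_S := by
  have hFIN : FIN_S := H25.fin H47.ly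
  have hFUB : FUB_S := H25.fub hFIN H47.ly
  have hBASE : BASE_S := H72.base hFIN H65.heu H28.bc2 H72.dbl_mod H72.corn H57.d2 H39.logd
  have hKAPPA : KAPPA_S := H98.kappa H39.k1 H87.marg H47.ly hFIN
  have hSTEP : STEP_S := H79.step H98.comp H29.tc2 H47.var (H70.p H70.ppt) H39.logd
  have hSM : SM_S := H92.sm hBASE hSTEP hFUB hKAPPA hFIN H39.logd
  exact H29.final (H36.qc hSM H93.apxu H30.apxs (H30.lim H47.ly))

end Pool.Agent.Lib.MP_2d002d_gt.PM
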